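import Pool.Agent.L7h48.RT.Stm

set_option autoImplicit false

/-! Project RT, part FMN. -/

namespace Pool.Agent.L7h34.RT

open Pool.Agent.L7h48.RT
open scoped Classical

theorem phi_nonneg {n : ℕ} (l : ℝ) (H : SimpleGraph (Fin n)) : 0 ≤ Phi l H :=
  Finset.sum_nonneg fun _ _ => le_max_right _ _

theorem phi_le {n : ℕ} {l : ℝ} (hl : 0 ≤ l) (H : SimpleGraph (Fin n)) : Phi l H ≤ n := by
  have h1 : Phi l H ≤ ∑ C ∈ Finset.univ.image H.connectedComponentMk, (C.supp.ncard : ℝ) := by
    refine Finset.sum_le_sum fun C _ => max_le ?_ ?_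
    · linarith
    · positivity
  have h2 : (Finset.univ : Finset (Fin n)).card =
      ∑ C ∈ Finset.univ.image H.connectedComponentMk,
        (Finset.univ.filter fun v => H.connectedComponentMk v = C).card :=
    Finset.card_eq_sum_card_image _ _
  have h3 : ∀ C : H.ConnectedComponent, C.supp.ncard =
      (Finset.univ.filter fun v => H.connectedComponentMk v = C).card := by
    intro C
    rw [← Set.ncard_coe_finset]
    congr 1
    ext v
    simp [SimpleGraph.ConnectedComponent.mem_supp_iff]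
  rw [Finset.card_univ, Fintype.card_fin] at h2
  refine h1.trans (le_of_eq ?_)
  rw [← Nat.cast_sum]
  congr 1
  exact (Finset.sum_congr rfl fun C _ => h3 C).trans h2.symm

theorem rainbow_mono {n c : ℕ} {x y : Col n c} (h : ∀ e, x e ≠ none → y e = x e)
    {H : SimpleGraph (Fin n)} (hx : Rainbow x H) : Rainbow y H := by
  refine ⟨fun e he => ?_, fun e f he hf hef => ?_⟩
  · rw [h e (hx.1 e he)]
    exact hx.1 e he
  · apply hx.2 e f he hf
    rw [← h e (hx.1 e he), ← h f (hx.1 f hf)]
    exact hef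

theorem s_FMN : S_FMN := by
  intro n c k l x hk hl
  have hne : ∀ y : Col n c,
      (Phi l '' {H : SimpleGraph (Fin n) | Rainbow y H ∧ H.edgeSet.ncard + k ≤ c}).Nonempty := by
    intro y
    refine ⟨_, ⊥, ⟨⟨?_, ?_⟩, ?_⟩, rfl⟩
    · intro e he
      simp at he
    · intro e f he
      simp at he
    · simpa using hk
  have hfin : ∀ y : Col n c,
      (Phi l '' {H : SimpleGraph (Fin n) | Rainbow y H ∧ H.edgeSet.ncard + k ≤ c}).Finite :=
    fun y => Set.toFinite _
  obtain ⟨H, hH, hF⟩ := (hne x).csSup_mem (hfin x)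
  have hF' : F k l x = Phi l H := hF.symm
  refine ⟨?_, ?_, ?_, H, hH.1, hH.2, hF'⟩
  · rw [hF']
    exact phi_nonneg l H
  · rw [hF']
    exact phi_le hl H
  · intro y hy
    apply csSup_le_csSup (hfin y).bddAbove (hne x)
    apply Set.image_mono
    rintro H ⟨h1, h2⟩
    exact ⟨rainbow_mono hy h1, h2⟩

end Pool.Agent.L7h34.RT
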